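import Pool.Agent.Y34.EL.Stm

/-!
Job EL-CLOSE of project EL: segments with ends in the directions of a line without half-planes, and
the closing lemma.
-/

set_option autoImplicit false

universe u v

open Metric Set Filter Topology
open Pool.Agent.TH60.FP Pool.Agent.Y34.HB Pool.Agent.Y34.EL

namespace Pool.Agent.Y975.EL.Close

theorem t1 (h1 : S_FAR.{u}) (h2 : S_HLIM.{u}) : S_RO.{u} := by
  intro X _ _ hX σ hσ hHP
  by_contra hcon
  push Not at hcon
  have key : (HP σ).Nonempty := by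
    refine h2 X hX σ hσ fun k => ?_
    have hk : (0 : ℝ) ≤ k := Nat.cast_nonneg k
    obtain ⟨τ, hτ, hP, hD⟩ := h1 X hX σ hσ ((k : ℝ) + 2) (by linarith) (by
      intro n hn
      obtain ⟨p, q, a1, a2, a3, a4, a5⟩ := hcon ((k : ℝ) + 2) n (by exact_mod_cast hn)
      exact ⟨p, q, a1, a2, a3, a4, fun m hm => (a5 m hm).le⟩)
    exact ⟨τ, hτ, hP, by linarith⟩
  rw [hHP] at key
  exact Set.not_nonempty_empty key

section

variable {X : Type u} [MetricSpace X]

/-- points of `[o, y]` are points of `[o, p]` if `y` is on `[o, p]` -/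
lemma on_ext {o y p z : X} {T : ℝ} (hy : dist o y + dist y p = dist o p) (hz : On o y T z) :
    On o p T z := by
  refine ⟨hz.1, le_antisymm ?_ ?_⟩
  · have h := dist_triangle z y p
    rw [hz.2] at h
    linarith
  · have h := dist_triangle o z p
    rw [hz.1] at h
    linarith

lemma close [ProperSpace X] (hC : S_CMP.{u}) (hX : CN X) {o p q a b : X} {T K : ℝ} (hT : 0 < T)
    (ha : On o p T a) (hb : On o q T b) (hpq : dist p q ≤ K)
    (h1 : 4 * T * K ≤ dist o p) (h2 : 4 * T * K ≤ dist o q) (h1' : 0 < dist o p)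
    (h2' : 0 < dist o q) : dist a b ≤ 1 / 4 := by
  have h := (hC X hX).1 o p q T a b ha hb
  have hK : 0 ≤ K := dist_nonneg.trans hpq
  by_contra hcon
  push Not at hcon
  have hP : 0 < dist o p * dist o q := mul_pos h1' h2'
  have e1 : (4 * T * K) * (4 * T * K) ≤ dist o p * dist o q :=
    mul_le_mul h1 h2 (by positivity) h1'.le
  have e2 : (1 / 4 : ℝ) ^ 2 < dist a b ^ 2 := pow_lt_pow_left₀ hcon (by norm_num) (by norm_num)
  have e3 : (1 / 4 : ℝ) ^ 2 * (dist o p * dist o q) < dist a b ^ 2 * (dist o p * dist o q) :=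
    mul_lt_mul_of_pos_right e2 hP
  have e4 : dist p q ^ 2 ≤ K ^ 2 := pow_le_pow_left₀ dist_nonneg hpq 2
  have e5 : dist p q ^ 2 - (dist o p - dist o q) ^ 2 ≤ K ^ 2 := by
    have := sq_nonneg (dist o p - dist o q)
    linarith
  have e6 : T ^ 2 * (dist p q ^ 2 - (dist o p - dist o q) ^ 2) ≤ T ^ 2 * K ^ 2 :=
    mul_le_mul_of_nonneg_left e5 (by positivity)
  have e7 : (4 * T * K) * (4 * T * K) = 16 * (T ^ 2 * K ^ 2) := by ring
  linarith

/-- the orbit points `g ^ n o` are seen from `o` in the direction of `b` -/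
lemma dir [ProperSpace X] {G : Type v} [Group G] [MulAction G X] [IsIsometricSMul G X]
    (hS : S_STEW.{u}) (hC : S_CMP.{u}) (hX : CN X) {o a b : X} {T R : ℝ} (hT : 0 < T) (hR : 0 ≤ R)
    (hRO : ∀ p q : X, T ≤ dist o p → T ≤ dist o q → (∀ y, On o p T y → dist y a ≤ 1) →
      (∀ y, On o q T y → dist y b ≤ 1) →
      ∃ m, dist p m + dist m q = dist p q ∧ dist o m ≤ R) (g : G)
    (hL : 4 * T * R + 4 * T + 4 * R + 4 ≤ dist o (g • o))
    (hb : ∀ y, On o (g • o) T y → dist y b ≤ 1 / 2)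
    (ha : ∀ y, On o (g⁻¹ • o) T y → dist y a ≤ 1 / 2) :
    ∀ n : ℕ, T ≤ dist o (g ^ (n + 1) • o) ∧
      (∀ y, On o (g ^ (n + 1) • o) T y → dist y b ≤ 3 / 4) ∧
      (n + 1) * (dist o (g • o) - 2 * R) ≤ dist o (g ^ (n + 1) • o) := by
  have hTR : 0 ≤ T * R := by positivity
  have hinv : dist o (g⁻¹ • o) = dist o (g • o) := by
    rw [← dist_smul g o (g⁻¹ • o), smul_inv_smul, dist_comm]
  intro n
  induction n with
  | zero =>
    rw [zero_add, pow_one]
    refine ⟨by linarith, fun y hy => (hb y hy).trans (by norm_num), ?_⟩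
    push_cast
    linarith
  | succ n ih =>
    obtain ⟨i1, i2, i3⟩ := ih
    obtain ⟨m, hm1, hm2⟩ := hRO (g⁻¹ • o) (g ^ (n + 1) • o) (by rw [hinv]; linarith) i1
      (fun y hy => (ha y hy).trans (by norm_num)) (fun y hy => (i2 y hy).trans (by norm_num))
    have e1 : dist o (g • m) + dist (g • m) (g ^ (n + 1 + 1) • o) =
        dist o (g ^ (n + 1 + 1) • o) := by
      have h1 : dist o (g • m) = dist (g⁻¹ • o) m := by
        rw [← dist_smul g (g⁻¹ • o) m, smul_inv_smul]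
      have h2 : dist (g • m) (g ^ (n + 1 + 1) • o) = dist m (g ^ (n + 1) • o) := by
        rw [pow_succ' g (n + 1), mul_smul, dist_smul]
      have h3 : dist o (g ^ (n + 1 + 1) • o) = dist (g⁻¹ • o) (g ^ (n + 1) • o) := by
        rw [← dist_smul g (g⁻¹ • o) (g ^ (n + 1) • o), smul_inv_smul, pow_succ' g (n + 1),
          mul_smul]
      rw [h1, h2, h3, hm1]
    have e2 : dist (g • m) (g • o) ≤ R := by
      rw [dist_smul, dist_comm]
      exact hm2
    have e3 : dist o (g • o) - R ≤ dist o (g • m) := by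
      have := dist_triangle o (g • m) (g • o)
      linarith
    have e4 : dist o (g • m) ≤ dist o (g ^ (n + 1 + 1) • o) := by
      have : 0 ≤ dist (g • m) (g ^ (n + 1 + 1) • o) := dist_nonneg
      linarith
    have e5 : T ≤ dist o (g • m) := by linarith
    refine ⟨e5.trans e4, fun y hy => ?_, ?_⟩
    · obtain ⟨z, hz⟩ := (hS X hX).1 o (g • m) T hT.le e5
      have hz' := on_ext e1 hz
      have hyz : y = z := (hS X hX).2.1 o _ T y z hy hz'
      obtain ⟨w, hw⟩ := (hS X hX).1 o (g • o) T hT.le (by linarith)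
      have h1 : dist z w ≤ 1 / 4 :=
        close hC hX hT hz hw e2 (by linarith) (by linarith) (by linarith) (by linarith)
      have h2 := hb w hw
      have h3 := dist_triangle z w b
      rw [hyz]
      linarith
    · have h1 : dist o (g ^ (n + 1 + 1) • o) = dist (g⁻¹ • o) (g ^ (n + 1) • o) := by
        rw [← dist_smul g (g⁻¹ • o) (g ^ (n + 1) • o), smul_inv_smul, pow_succ' g (n + 1),
          mul_smul]
      rw [h1, ← hm1]
      have h2 := dist_triangle (g⁻¹ • o) m o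
      have h3 := dist_triangle o m (g ^ (n + 1) • o)
      rw [dist_comm (g⁻¹ • o) o, hinv, dist_comm m o] at h2
      push_cast
      nlinarith

/-- orbit points along an axis -/
lemma axis_pow {G : Type v} [Group G] [MulAction G X] {g : G} {τ : ℝ} {c : ℝ → X}
    (h : Axis g τ c) (n : ℕ) : g ^ n • c 0 = c (n * τ) := by
  induction n with
  | zero => simp
  | succ n ih =>
    rw [pow_succ', mul_smul, ih, h.2]
    congr 1
    push_cast
    ring

lemma axis_inv {G : Type v} [Group G] [MulAction G X] {g : G} {τ : ℝ} {c : ℝ → X}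
    (h : Axis g τ c) (n : ℕ) : g⁻¹ ^ n • c 0 = c (-(n * τ)) := by
  induction n with
  | zero => simp
  | succ n ih =>
    rw [pow_succ', mul_smul, ih, inv_smul_eq_iff, h.2]
    congr 1
    push_cast
    ring

end

theorem t2 (h1 : S_STEW.{u}) (h2 : S_CMP.{u}) (h3 : S_RO.{u}) (h4 : S_AXIS.{u, v}) :
    S_CLOSE.{u, v} := by
  intro X _ G _ _ hG σ hσ hHP
  have := hG.proper
  have := hG.isom
  have hX := hG.cn
  obtain ⟨R0, T, hT, hRO0⟩ := h3 X hX σ hσ hHP
  set R : ℝ := max R0 0 with hRdef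
  have hR : 0 ≤ R := le_max_right _ _
  have hRO : ∀ p q : X, T ≤ dist (σ 0) p → T ≤ dist (σ 0) q →
      (∀ y, On (σ 0) p T y → dist y (σ (-T)) ≤ 1) → (∀ y, On (σ 0) q T y → dist y (σ T) ≤ 1) →
      ∃ m, dist p m + dist m q = dist p q ∧ dist (σ 0) m ≤ R := by
    intro p q a1 a2 a3 a4
    obtain ⟨m, b1, b2⟩ := hRO0 p q a1 a2 a3 a4
    exact ⟨m, b1, b2.trans (le_max_left _ _)⟩
  have hRO' : ∀ p q : X, T ≤ dist (σ 0) p → T ≤ dist (σ 0) q →
      (∀ y, On (σ 0) p T y → dist y (σ T) ≤ 1) → (∀ y, On (σ 0) q T y → dist y (σ (-T)) ≤ 1) →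
      ∃ m, dist p m + dist m q = dist p q ∧ dist (σ 0) m ≤ R := by
    intro p q a1 a2 a3 a4
    obtain ⟨m, b1, b2⟩ := hRO q p a2 a1 a4 a3
    refine ⟨m, ?_, b2⟩
    rw [dist_comm p m, dist_comm m q, dist_comm p q, add_comm]
    exact b1
  have hTR : 0 ≤ T * R := by positivity
  refine ⟨T, 4 * T * R + 4 * T + 4 * R + 4, hT, by linarith, fun g hL hgV hgU => ?_⟩
  have hinv : dist (σ 0) (g⁻¹ • σ 0) = dist (σ 0) (g • σ 0) := by
    rw [← dist_smul g (σ 0) (g⁻¹ • σ 0), smul_inv_smul, dist_comm]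
  have hV := dir h1 h2 hX hT hR hRO g hL hgV hgU
  have hU := dir h1 h2 hX hT hR hRO' g⁻¹ (by rw [hinv]; exact hL) hgU (by rwa [inv_inv])
  set κ : ℝ := dist (σ 0) (g • σ 0) - 2 * R with hκ
  have hκ0 : 0 < κ := by rw [hκ]; linarith
  have hgrow : ∀ m : ℕ, κ * m ≤ dist (σ 0) (g ^ m • σ 0) := by
    intro m
    cases m with
    | zero => simp
    | succ n =>
      have := (hV n).2.2
      push_cast
      linarith
  have hgrow' : ∀ n : ℕ, κ * (n + 1) ≤ dist (σ 0) (g⁻¹ ^ (n + 1) • σ 0) := by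
    intro n
    have := (hU n).2.2
    rw [hinv] at this
    linarith
  obtain ⟨τ, c, hτ, hA⟩ := h4 X G hG g (σ 0) κ hκ0 hgrow
  refine ⟨τ, c, hτ, hA, ?_⟩
  by_contra hne
  obtain ⟨H, hH1, hH2⟩ := Set.nonempty_iff_ne_empty.2 hne
  set K0 : ℝ := dist (σ 0) (c 0) with hK0
  have hK00 : 0 ≤ K0 := dist_nonneg
  set h : NNReal := ⟨K0 + R + 1, by linarith⟩ with hh
  have hhv : (h : ℝ) = K0 + R + 1 := rfl
  set K1 : ℝ := K0 + h with hK1
  have hK10 : 0 ≤ K1 := by rw [hK1, hhv]; linarith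
  obtain ⟨n, hn⟩ := exists_nat_ge ((K1 + 4 * T * K1 + T + 1) / κ)
  have hn' : K1 + 4 * T * K1 + T + 1 ≤ κ * (n + 1) := by
    rw [div_le_iff₀ hκ0] at hn
    nlinarith
  have hTK : 0 ≤ T * K1 := by positivity
  -- distances in the half-plane
  have hdd : ∀ x y : ℝ, dist (H (x, h)) (H (y, h)) = |x - y| := by
    intro x y
    have := hH1 (x, h) (y, h)
    simp only [sub_self, ne_eq, OfNat.ofNat_ne_zero, not_false_eq_true, zero_pow, add_zero] at this
    rw [← abs_of_nonneg (dist_nonneg : 0 ≤ dist (H (x, h)) (H (y, h)))]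
    exact (sq_eq_sq_iff_abs_eq_abs _ _).1 this
  have hd0 : ∀ x : ℝ, dist (H (x, h)) (c x) = h := by
    intro x
    have := hH1 (x, h) (x, 0)
    rw [hH2] at this
    simp only [sub_self, ne_eq, OfNat.ofNat_ne_zero, not_false_eq_true, zero_pow, zero_add,
      NNReal.coe_zero, sub_zero] at this
    exact (pow_left_inj₀ dist_nonneg h.2 two_ne_zero).1 this
  have hd1 : ∀ x : ℝ, (h : ℝ) ≤ dist (H (x, h)) (c 0) := by
    intro x
    have := hH1 (x, h) (0, 0)
    rw [hH2] at this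
    simp only [NNReal.coe_zero, sub_zero] at this
    refine le_of_sq_le_sq ?_ dist_nonneg
    rw [this]
    have := sq_nonneg x
    linarith
  -- the two points
  have hfar : ∀ (γ : G) (x : ℝ), γ • c 0 = c x → dist (H (x, h)) (γ • σ 0) ≤ K1 := by
    intro γ x hx
    have h5 : dist (c x) (γ • σ 0) = K0 := by
      rw [← hx, dist_smul, dist_comm]
    have h6 := dist_triangle (H (x, h)) (c x) (γ • σ 0)
    rw [hd0, h5] at h6
    rw [hK1]
    linarith
  have main : ∀ (γ : G) (x : ℝ) (b : X), γ • c 0 = c x → κ * (n + 1) ≤ dist (σ 0) (γ • σ 0) →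
      (∀ y, On (σ 0) (γ • σ 0) T y → dist y b ≤ 3 / 4) →
      T ≤ dist (σ 0) (H (x, h)) ∧ ∀ y, On (σ 0) (H (x, h)) T y → dist y b ≤ 1 := by
    intro γ x b hx hgr hdir
    have h5 := hfar γ x hx
    have h6 := dist_triangle (σ 0) (H (x, h)) (γ • σ 0)
    have h7 : 4 * T * K1 + T + 1 ≤ dist (σ 0) (H (x, h)) := by linarith
    refine ⟨by linarith, fun y hy => ?_⟩
    obtain ⟨w, hw⟩ := (h1 X hX).1 (σ 0) (γ • σ 0) T hT.le (by linarith)
    have h8 : dist y w ≤ 1 / 4 :=
      close h2 hX hT hy hw h5 (by linarith) (by linarith) (by linarith) (by linarith)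
    have h9 := hdir w hw
    have h10 := dist_triangle y w b
    linarith
  obtain ⟨v1, v2⟩ := main (g ^ (n + 1)) (((n + 1 : ℕ) : ℝ) * τ) (σ T) (axis_pow hA (n + 1))
    (by simpa using hgrow (n + 1)) (hV n).2.1
  obtain ⟨u1, u2⟩ := main (g⁻¹ ^ (n + 1)) (-(((n + 1 : ℕ) : ℝ) * τ)) (σ (-T))
    (axis_inv hA (n + 1)) (hgrow' n) (hU n).2.1
  obtain ⟨m, hm1, hm2⟩ := hRO _ _ u1 v1 u2 v2
  set x : ℝ := ((n + 1 : ℕ) : ℝ) * τ with hx
  have hx0 : 0 ≤ x := by rw [hx]; positivity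
  set t : ℝ := dist (H (-x, h)) m with ht
  have hD : dist (H (-x, h)) (H (x, h)) = 2 * x := by
    rw [hdd, show -x - x = -(2 * x) by ring, abs_neg, abs_of_nonneg (by linarith)]
  have ht0 : 0 ≤ t := dist_nonneg
  have htD : t ≤ 2 * x := by
    have : 0 ≤ dist m (H (x, h)) := dist_nonneg
    linarith
  have hmm : m = H (-x + t, h) := by
    refine (h1 X hX).2.1 (H (-x, h)) (H (x, h)) t m _ ⟨rfl, by linarith⟩ ⟨?_, ?_⟩
    · rw [hdd, show -x - (-x + t) = -t by ring, abs_neg, abs_of_nonneg ht0]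
    · rw [hdd, hD, show -x + t - x = -(2 * x - t) by ring, abs_neg, abs_of_nonneg (by linarith)]
  have h11 := hd1 (-x + t)
  rw [← hmm] at h11
  have h12 := dist_triangle m (σ 0) (c 0)
  rw [dist_comm m (σ 0)] at h12
  linarith

end Pool.Agent.Y975.EL.Close
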